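import Mathlib
import Pool.Agent.Q52.Nil.Defs
import Pool.Agent.Q52.Nil.Closure
import Pool.Agent.Q52.Nil.Pair

set_option autoImplicit false

/-!
# A self-map without a maximal geometrically nilpotent subvariety

`T (x, y, z, w) = (y, y (x - 1), w, w (z - 1))` is a self-map of `𝔸⁴`. It is the product of two copies
of `t (x, y) = (y, y (x - 1))`. The line `L : x = 0` of the plane is geometrically nilpotent for `t`,
with infinitely many different images `tⁱ L`. The closures `Zᵢ` of `tⁱ L × L` are geometrically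
nilpotent surfaces. A closed subvariety which captures all of them contains the plane `z = w = 0`, on
which `T` has periodic points that never reach the fixed point.
-/

namespace Pool.Agent.Results.MP_b41bf9_ag.NoMaximalNilpotent

open MvPolynomial Q52.Nil

variable {F : Type*} [Field F]

/-- `Y` is a geometrically nilpotent subvariety for `T`: it is a closed subvariety defined over the
field, and each of its irreducible components is geometrically nilpotent. -/
def IsGeomNilpotentSubvariety {n : ℕ} (T : Fin n → MvPolynomial (Fin n) F) (Y : Set (Pt F n)) :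
    Prop :=
  IsSubvariety Y ∧ ∀ Z, IsComponent Z Y → IsGeomNilpotentFor T Z

/-- The map `T (x, y, z, w) = (y, y (x - 1), w, w (z - 1))`. -/
noncomputable def T (F : Type*) [Field F] : Fin 4 → MvPolynomial (Fin 4) F :=
  ![X 1, X 1 * (X 0 - 1), X 3, X 3 * (X 2 - 1)]

/-- The geometric point of `𝔸⁴` with coordinates `a.1, a.2, b.1, b.2`. -/
def mk (a b : AlgebraicClosure F × AlgebraicClosure F) : Pt F 4 := ![a.1, a.2, b.1, b.2]

theorem exists_mk (Q : Pt F 4) : ∃ a b, Q = mk a b :=
  ⟨(Q 0, Q 1), (Q 2, Q 3), by funext i; fin_cases i <;> rfl⟩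

theorem mk_inj {a b a' b' : AlgebraicClosure F × AlgebraicClosure F} (h : mk a b = mk a' b') :
    a = a' ∧ b = b' :=
  ⟨Prod.ext (congrFun h 0) (congrFun h 1), Prod.ext (congrFun h 2) (congrFun h 3)⟩

theorem mk_zero : mk (0 : AlgebraicClosure F × AlgebraicClosure F) 0 = 0 := by
  funext i
  fin_cases i <;> rfl

theorem act_mk (a b : AlgebraicClosure F × AlgebraicClosure F) :
    act (T F) (mk a b) = mk (t a) (t b) := by
  funext i
  fin_cases i <;> simp [act, T, mk, t]

theorem iterate_mk (a b : AlgebraicClosure F × AlgebraicClosure F) (k : ℕ) :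
    (act (T F))^[k] (mk a b) = mk (t^[k] a) (t^[k] b) := by
  induction k with
  | zero => rfl
  | succ k ih => rw [Function.iterate_succ_apply', ih, act_mk, Function.iterate_succ_apply',
      Function.iterate_succ_apply']

theorem act_zero : act (T F) (0 : Pt F 4) = 0 := by
  rw [← mk_zero, act_mk, t_zero]

/-! ### Orbits of points of the plane over a finite field -/

/-- The geometric points of the plane lie in finite sets preserved by `t`. -/
theorem exists_finite [Finite F] (p : AlgebraicClosure F × AlgebraicClosure F) :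
    ∃ S : Set (AlgebraicClosure F × AlgebraicClosure F), S.Finite ∧ p ∈ S ∧
      Set.MapsTo t S S := by
  obtain ⟨S, hS, hp, hT⟩ := exists_finite_invariant (F := F) (mk p 0)
  refine ⟨(fun Q : Pt F 4 => (Q 0, Q 1)) '' S, hS.image _, ⟨mk p 0, hp, rfl⟩, ?_⟩
  rintro _ ⟨Q, hQ, rfl⟩
  obtain ⟨a, b, rfl⟩ := exists_mk Q
  refine ⟨act (T F) (mk a b), hT (T F) hQ, ?_⟩
  rw [act_mk]
  rfl

/-- All geometric points of the line `x = 0` reach the origin. -/
theorem dies_of_line [Finite F] (s : AlgebraicClosure F) : ∃ k, t^[k] ((0 : AlgebraicClosure F), s) = 0 := by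
  obtain ⟨S, hS, hq, hT⟩ := exists_finite (F := F) (0, s)
  obtain ⟨k, hk⟩ := exists_iterate_mem t S {p | p.2 = 0} hS hT
    (fun p hp q _ h => t_injOn (fun h0 => hp.2 h0) h) (0, s) hq
    (fun x hx h => hx.2 (congrArg Prod.fst h))
  refine ⟨k + 1, ?_⟩
  rw [Function.iterate_succ_apply']
  exact t_eq_zero.2 hk

/-- A geometric point of the plane reaches the origin or is periodic. -/
theorem dies_or_periodic [Finite F] (p : AlgebraicClosure F × AlgebraicClosure F) :
    (∃ k, t^[k] p = 0) ∨ ∃ N, 1 ≤ N ∧ t^[N] p = p := by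
  obtain ⟨S, hS, hq, hT⟩ := exists_finite (F := F) p
  rcases iterate_mem_or_periodic t S {p | p.2 = 0} hS hT
    (fun p hp q _ h => t_injOn (fun h0 => hp.2 h0) h) p hq with ⟨k, hk⟩ | h
  · left
    refine ⟨k + 1, ?_⟩
    rw [Function.iterate_succ_apply']
    exact t_eq_zero.2 hk
  · exact Or.inr h

/-! ### Transport of polynomial relations along `t` -/

/-- For each polynomial `f` there are `N` and `G` with `G (t p) = y(p) ^ N * f(p)`. -/
theorem exists_transport (f : MvPolynomial (Fin 2) F) :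
    ∃ (N : ℕ) (G : MvPolynomial (Fin 2) F), ∀ p : AlgebraicClosure F × AlgebraicClosure F,
      aeval ![(t p).1, (t p).2] G = p.2 ^ N * aeval ![p.1, p.2] f := by
  induction f using MvPolynomial.induction_on with
  | C a => exact ⟨0, C a, fun p => by simp⟩
  | add f₁ f₂ h₁ h₂ =>
    obtain ⟨N₁, G₁, h₁⟩ := h₁
    obtain ⟨N₂, G₂, h₂⟩ := h₂
    refine ⟨N₁ + N₂, X 0 ^ N₂ * G₁ + X 0 ^ N₁ * G₂, fun p => ?_⟩
    rw [map_add, map_mul, map_mul, h₁, h₂, map_add, map_pow, map_pow, aeval_X]
    simp only [t, Matrix.cons_val_zero]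
    ring
  | mul_X f i h =>
    obtain ⟨N, G, h⟩ := h
    fin_cases i
    · refine ⟨N + 1, G * (X 1 + X 0), fun p => ?_⟩
      rw [map_mul, h, map_mul]
      simp [t]
      ring
    · refine ⟨N, G * X 0, fun p => ?_⟩
      rw [map_mul, h, map_mul]
      simp [t]
      ring

/-- The closure over `F` of a set of geometric points of the plane. -/
def clo2 (D : Set (AlgebraicClosure F × AlgebraicClosure F)) :
    Set (AlgebraicClosure F × AlgebraicClosure F) :=
  {p | ∀ f : MvPolynomial (Fin 2) F, (∀ q ∈ D, aeval ![q.1, q.2] f = 0) → aeval ![p.1, p.2] f = 0}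

theorem mem_clo2_of_t {D : Set (AlgebraicClosure F × AlgebraicClosure F)}
    {p : AlgebraicClosure F × AlgebraicClosure F} (hp : p.2 ≠ 0) (h : t p ∈ clo2 (F := F) (t '' D)) :
    p ∈ clo2 (F := F) D := by
  intro f hf
  obtain ⟨N, G, hG⟩ := exists_transport f
  have h1 := h G (by
    rintro _ ⟨q, hq, rfl⟩
    rw [hG, hf q hq, mul_zero])
  rw [hG] at h1
  exact (mul_eq_zero.1 h1).resolve_left (pow_ne_zero _ hp)

theorem mem_clo2_of_iterate {D : Set (AlgebraicClosure F × AlgebraicClosure F)} (i : ℕ) :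
    ∀ {p : AlgebraicClosure F × AlgebraicClosure F}, (∀ k, t^[k] p ≠ 0) →
      t^[i] p ∈ clo2 (F := F) (t^[i] '' D) → p ∈ clo2 (F := F) D := by
  induction i with
  | zero =>
    intro p _ h
    simpa using h
  | succ i ih =>
    intro p hp h
    apply ih hp
    rw [Function.iterate_succ_apply'] at h
    have h2 : t^[i + 1] '' D = t '' (t^[i] '' D) := by
      rw [← Set.image_comp, ← Function.iterate_succ']
    rw [h2] at h
    refine mem_clo2_of_t (fun h0 => ?_) h
    exact hp (i + 1) (by rw [Function.iterate_succ_apply']; exact t_eq_zero.2 h0)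

/-- All points of the closure of `tⁱ L` reach the origin. -/
theorem dies_of_clo2 [Finite F] (i : ℕ) (p : AlgebraicClosure F × AlgebraicClosure F)
    (hp : p ∈ clo2 (F := F) (t^[i] '' Set.range fun s => ((0 : AlgebraicClosure F), s))) :
    ∃ k, t^[k] p = 0 := by
  rcases dies_or_periodic (F := F) p with h | ⟨N, hN, hper⟩
  · exact h
  · by_contra hcon
    push Not at hcon
    have hper2 : ∀ j : ℕ, t^[N * j] p = p := by
      intro j
      rw [Function.iterate_mul]
      exact Function.iterate_fixed hper j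
    obtain ⟨e, he⟩ : ∃ e, i + e = N * i := ⟨N * i - i, by
      have : i ≤ N * i := Nat.le_mul_of_pos_left i hN
      omega⟩
    have h1 : t^[i] (t^[e] p) = p := by
      rw [← Function.iterate_add_apply, he, hper2]
    have h2 : t^[e] p ∈ clo2 (F := F) (Set.range fun s => ((0 : AlgebraicClosure F), s)) := by
      apply mem_clo2_of_iterate i
      · intro k
        rw [← Function.iterate_add_apply]
        exact hcon _
      · rwa [h1]
    have h3 : (t^[e] p).1 = 0 := by
      have := h2 (X 0) (by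
        rintro _ ⟨s, rfl⟩
        simp)
      simpa using this
    obtain ⟨k, hk⟩ := dies_of_line (F := F) (t^[e] p).2
    have h4 : ((0 : AlgebraicClosure F), (t^[e] p).2) = t^[e] p := Prod.ext h3.symm rfl
    rw [h4, ← Function.iterate_add_apply] at hk
    exact hcon _ hk

/-! ### The surfaces `Zᵢ` -/

/-- The set `tⁱ L × L`. -/
def D (F : Type*) [Field F] (i : ℕ) : Set (Pt F 4) :=
  Set.range fun R : Pt F 2 => mk (t^[i] (0, R 0)) (0, R 1)

/-- The polynomial `g` in the variable `X j`. -/
noncomputable def inVar (j : Fin 2) (g : Polynomial F) : MvPolynomial (Fin 2) F :=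
  Polynomial.aeval (X j) g

theorem aeval_inVar (j : Fin 2) (g : Polynomial F) (R : Pt F 2) :
    aeval R (inVar j g) = Polynomial.aeval (R j) g := by
  unfold inVar
  rw [← Polynomial.aeval_algHom_apply, aeval_X]

theorem iterate_cd' (s : AlgebraicClosure F) (i : ℕ) :
    t^[i] ((0 : AlgebraicClosure F), s) =
      (Polynomial.aeval s (cd F i).1, Polynomial.aeval s (cd F i).2) := by
  induction i with
  | zero => simp [cd]
  | succ i ih =>
    rw [Function.iterate_succ_apply', ih]
    simp [cd, t]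

theorem isIrreducible_Z (i : ℕ) : IsIrreducibleSubvariety (clo (D F i)) := by
  apply isIrreducible_clo_image (m := 2)
    ![inVar 0 (cd F i).1, inVar 0 (cd F i).2, 0, X 1]
  unfold D
  congr 1
  funext R j
  rw [iterate_cd']
  fin_cases j
  · simp [mk, aeval_inVar]
  · simp [mk, aeval_inVar]
  · simp [mk]
  · simp [mk]

theorem isGeomNilpotent_Z [Finite F] (i : ℕ) : IsGeomNilpotentFor (T F) (clo (D F i)) := by
  refine ⟨0, act_zero, fun Q hQ => ?_⟩
  obtain ⟨a, b, rfl⟩ := exists_mk Q
  have hb : b.1 = 0 := by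
    have := hQ (X 2) (by
      rintro _ ⟨R, rfl⟩
      simp [mk])
    simpa [mk] using this
  have ha : a ∈ clo2 (F := F) (t^[i] '' Set.range fun s => ((0 : AlgebraicClosure F), s)) := by
    intro f hf
    have h := hQ (rename ![0, 1] f) (by
      rintro _ ⟨R, rfl⟩
      have h1 := hf (t^[i] (0, R 0)) ⟨_, ⟨R 0, rfl⟩, rfl⟩
      rw [aeval_rename]
      convert h1 using 2
      congr 1
      funext j
      fin_cases j <;> rfl)
    rw [aeval_rename] at h
    rw [← h]
    congr 2
    funext j
    fin_cases j <;> rfl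
  obtain ⟨k₁, hk₁⟩ := dies_of_clo2 (F := F) i a ha
  obtain ⟨k₂, hk₂⟩ := dies_of_line (F := F) b.2
  have hb' : ((0 : AlgebraicClosure F), b.2) = b := Prod.ext hb.symm rfl
  rw [hb'] at hk₂
  refine ⟨k₁ + k₂ + 1, by omega, ?_⟩
  rw [iterate_mk, t_iter_eq_zero_mono (by omega) hk₁, t_iter_eq_zero_mono (by omega) hk₂, mk_zero]

/-! ### The plane `W` -/

/-- The plane `z = w = 0`. -/
def W (F : Type*) [Field F] : Set (Pt F 4) := Set.range fun a => mk a 0

theorem clo_W : clo (W F) = W F := by
  apply Set.Subset.antisymm _ (subset_clo _)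
  intro Q hQ
  obtain ⟨a, b, rfl⟩ := exists_mk Q
  have hb : b.1 = 0 := by
    have := hQ (X 2) (by
      rintro _ ⟨R, rfl⟩
      simp [mk])
    simpa [mk] using this
  have hb2 : b.2 = 0 := by
    have := hQ (X 3) (by
      rintro _ ⟨R, rfl⟩
      simp [mk])
    simpa [mk] using this
  exact ⟨a, by
    have : b = 0 := Prod.ext hb hb2
    rw [this]⟩

theorem isIrreducible_W : IsIrreducibleSubvariety (W F) := by
  rw [← clo_W]
  apply isIrreducible_clo_image (m := 2) ![X 0, X 1, 0, 0]
  ext Q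
  constructor
  · rintro ⟨a, rfl⟩
    refine ⟨![a.1, a.2], ?_⟩
    funext j
    fin_cases j <;> simp [mk]
  · rintro ⟨R, rfl⟩
    refine ⟨(R 0, R 1), ?_⟩
    funext j
    fin_cases j <;> simp [mk]

/-- If a one-variable polynomial over an infinite field vanishes outside the zeros of a nonzero
polynomial, then it is zero. -/
theorem poly_eq_zero {K : Type*} [Field K] [Infinite K] (P q : Polynomial K) (hq : q ≠ 0)
    (h : ∀ s, q.eval s ≠ 0 → P.eval s = 0) : P = 0 := by
  have h1 : P * q = 0 := by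
    apply Polynomial.funext
    intro s
    rw [Polynomial.eval_mul, Polynomial.eval_zero]
    by_cases hs : q.eval s = 0
    · rw [hs, mul_zero]
    · rw [h s hs, zero_mul]
  exact (mul_eq_zero.1 h1).resolve_right hq

theorem exists_eval_ne_zero {K : Type*} [Field K] [Infinite K] (q : Polynomial K) (hq : q ≠ 0) :
    ∃ s, q.eval s ≠ 0 := by
  by_contra hcon
  push Not at hcon
  exact hq (Polynomial.funext fun s => by rw [hcon s, Polynomial.eval_zero])

theorem eval_eq_aeval {K : Type*} [Field K] {σ : Type*} (Q : σ → K) (g : MvPolynomial σ K) :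
    eval Q g = aeval Q g := rfl

theorem poly_eval_eq_aeval {K : Type*} [Field K] (s : K) (g : Polynomial K) :
    Polynomial.eval s g = Polynomial.aeval s g := by
  rw [Polynomial.coe_aeval_eq_eval]

/-- The polynomial identity behind the main step. -/
theorem core {K : Type*} [Field K] [Infinite K] (g : MvPolynomial (Fin 4) K) (j e : ℕ)
    (q₁ q₂ : Polynomial K) (h₁ : q₁ ≠ 0) (h₂ : q₂ ≠ 0)
    (h : ∀ r s : K, q₁.eval r ≠ 0 → q₂.eval s ≠ 0 →
      eval ![(cd K j).1.eval r, (cd K j).2.eval r, (cd K e).1.eval s, (cd K e).2.eval s] g = 0) :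
    aeval ![(cd K j).1, (cd K j).2] (aeval ![(X 0 : MvPolynomial (Fin 2) K), X 1, 0, 0] g) = 0 := by
  apply poly_eq_zero _ _ h₁
  intro r hr
  have hP : (aeval ![Polynomial.C ((cd K j).1.eval r), Polynomial.C ((cd K j).2.eval r),
      (cd K e).1, (cd K e).2] g : Polynomial K) = 0 := by
    apply poly_eq_zero _ _ h₂
    intro s hs
    rw [← h r s hr hs, poly_eval_eq_aeval, ← AlgHom.comp_apply, comp_aeval, eval_eq_aeval]
    congr 2
    funext l
    fin_cases l <;> simp
  have h0 := congrArg (Polynomial.aeval (0 : K)) hP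
  rw [map_zero, ← AlgHom.comp_apply, comp_aeval] at h0
  rw [← h0, poly_eval_eq_aeval, ← AlgHom.comp_apply, comp_aeval, ← AlgHom.comp_apply, comp_aeval]
  congr 2
  funext l
  have hc := cd_eval_zero (K := K) e
  fin_cases l
  · simp
  · simp
  · simp [hc.1]
  · simp [hc.2]

/-- A closed subvariety that captures all surfaces `Zᵢ` contains the plane `W`. -/
theorem W_subset (Y : Set (Pt F 4)) (hY : IsSubvariety Y)
    (hcap : ∀ i, ∃ k m, clo (D F i) ⊆ (act (T F))^[k] ⁻¹' ((act (T F))^[m] '' Y)) : W F ⊆ Y := by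
  refine subset_of_vanishing hY fun f hf => ?_
  rintro _ ⟨a, rfl⟩
  obtain ⟨g, hg⟩ : ∃ g : MvPolynomial (Fin 4) (AlgebraicClosure F),
      ∀ Q : Pt F 4, eval Q g = aeval Q f :=
    ⟨map (algebraMap F (AlgebraicClosure F)) f, fun Q => by rw [eval_map, ← aeval_def]⟩
  by_cases hzero : aeval ![(X 0 : MvPolynomial (Fin 2) (AlgebraicClosure F)), X 1, 0, 0] g = 0
  · have h0 := congrArg (aeval ![a.1, a.2]) hzero
    rw [map_zero, ← AlgHom.comp_apply, comp_aeval] at h0
    rw [← hg, ← h0, eval_eq_aeval]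
    congr 2
    funext j
    fin_cases j <;> simp [mk]
  exfalso
  obtain ⟨i, hi⟩ := aeval_cd_ne_zero _ hzero
  obtain ⟨k, m, hkm⟩ := hcap i
  -- the key fact: for generic `(r, s)` the point `(γ_{i+k-m} r, γ_{k-m} s)` lies on `Y`
  have hkey : ∀ r s : AlgebraicClosure F, (cd (AlgebraicClosure F) (i + k)).2.eval r ≠ 0 →
      (cd (AlgebraicClosure F) k).2.eval s ≠ 0 →
      m ≤ k ∧ mk (t^[i + k - m] ((0 : AlgebraicClosure F), r))
        (t^[k - m] ((0 : AlgebraicClosure F), s)) ∈ Y := by
    intro r s hr hs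
    have hmem : mk (t^[i] ((0 : AlgebraicClosure F), r)) ((0 : AlgebraicClosure F), s) ∈
        clo (D F i) := by
      apply subset_clo
      exact ⟨![r, s], rfl⟩
    obtain ⟨Q', hQ', heq⟩ := hkm hmem
    obtain ⟨a', b', rfl⟩ := exists_mk Q'
    rw [iterate_mk, iterate_mk] at heq
    obtain ⟨e1, e2⟩ := mk_inj heq
    rw [← Function.iterate_add_apply, add_comm] at e1
    have n1 : t^[i + k] ((0 : AlgebraicClosure F), r) ≠ 0 := by
      rw [iterate_cd]
      intro h0
      exact hr (congrArg Prod.snd h0)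
    have n2 : t^[k] ((0 : AlgebraicClosure F), s) ≠ 0 := by
      rw [iterate_cd]
      intro h0
      exact hs (congrArg Prod.snd h0)
    obtain ⟨_, g1⟩ := t_cancel r m (i + k) a' e1 n1
    obtain ⟨hmk, g2⟩ := t_cancel s m k b' e2 n2
    refine ⟨hmk, ?_⟩
    rw [← g1, ← g2]
    exact hQ'
  obtain ⟨r₀, hr₀⟩ := exists_eval_ne_zero _ (cd_ne_zero (K := AlgebraicClosure F) (i + k))
  obtain ⟨s₀, hs₀⟩ := exists_eval_ne_zero _ (cd_ne_zero (K := AlgebraicClosure F) k)
  have hmk : m ≤ k := (hkey r₀ s₀ hr₀ hs₀).1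
  refine hi (i + k - m) (by omega) ?_
  apply core g (i + k - m) (k - m) _ _ (cd_ne_zero (i + k)) (cd_ne_zero k)
  intro r s hr hs
  have h1 := hf _ (hkey r s hr hs).2
  rwa [iterate_cd, iterate_cd, ← hg] at h1

/-- **Theorem.** Let `F` be a finite field and `T (x, y, z, w) = (y, y (x - 1), w, w (z - 1))`. For
every geometrically nilpotent subvariety `Y` of `𝔸⁴` there is a geometrically nilpotent subvariety
`Z`, which can be taken irreducible, that lies in `(Tᵏ)⁻¹ (Tᵐ Y)` for no pair `k, m`. -/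
theorem result (F : Type*) [Field F] [Finite F] :
    ∀ Y : Set (Pt F 4), IsGeomNilpotentSubvariety (T F) Y →
      ∃ Z : Set (Pt F 4), IsGeomNilpotentSubvariety (T F) Z ∧ IsIrreducibleSubvariety Z ∧
        ∀ k m : ℕ, ¬ Z ⊆ (act (T F))^[k] ⁻¹' ((act (T F))^[m] '' Y) := by
  intro Y hY
  by_contra hcon
  push Not at hcon
  have hcap : ∀ i, ∃ k m, clo (D F i) ⊆ (act (T F))^[k] ⁻¹' ((act (T F))^[m] '' Y) := by
    intro i
    apply hcon (clo (D F i)) ⟨isSubvariety_clo _, ?_⟩ (isIrreducible_Z i)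
    intro Z hZ
    rw [eq_of_isComponent (isIrreducible_Z i) hZ]
    exact isGeomNilpotent_Z i
  have hW := W_subset Y hY.1 hcap
  obtain ⟨Z, hWZ, hZ⟩ := exists_component hY.1 isIrreducible_W hW
  obtain ⟨P, _, hP⟩ := hY.2 Z hZ
  have h0 : P = 0 := by
    obtain ⟨k, _, hk⟩ := hP (mk 0 0) (hWZ ⟨0, rfl⟩)
    rw [← hk, iterate_mk, t_iter_zero, mk_zero]
  obtain ⟨a, ha⟩ := exists_periodic (K := AlgebraicClosure F)
  obtain ⟨k, _, hk⟩ := hP (mk a 0) (hWZ ⟨a, rfl⟩)
  rw [h0, iterate_mk, ← mk_zero] at hk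
  exact ha k (mk_inj hk).1

end Pool.Agent.Results.MP_b41bf9_ag.NoMaximalNilpotent
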